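import Pool.Agent.H88.OT.Targets

/-!
# (ML) local mean values
-/

set_option autoImplicit false

open Complex MeasureTheory Set

namespace Pool.Agent.H34.OT

open Pool.Agent.H88.OT
open Pool.Agent.H28.MZ (ei)

theorem ml_norm_ei (x : ℝ) : ‖ei x‖ = 1 := Complex.norm_exp_ofReal_mul_I x

theorem ml_ei_add (x y : ℝ) : ei (x + y) = ei x * ei y := by
  unfold ei
  rw [← Complex.exp_add]
  congr 1
  push_cast
  ring

theorem ml_ei_conj (x : ℝ) : (starRingEnd ℂ) (ei x) = ei (-x) := by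
  unfold ei
  rw [← Complex.exp_conj]
  congr 1
  simp

theorem ml_ei_cont (d : ℝ) : Continuous (fun z : ℝ => ei (d * z)) := by
  unfold ei
  fun_prop

/-- the Gaussian integral -/
theorem ml_gauss (d v : ℝ) :
    ‖∫ z : ℝ, ((Real.exp (-(z - v) ^ 2) : ℝ) : ℂ) * ei (d * z)‖ ≤
      2 * Real.exp (-d ^ 2 / 4) := by
  have h1 : ∫ z : ℝ, ((Real.exp (-(z - v) ^ 2) : ℝ) : ℂ) * ei (d * z) =
      ei (d * v) * ∫ z : ℝ, cexp (I * (d : ℂ) * z) * cexp (-1 * (z : ℂ) ^ 2) := by
    rw [← integral_add_right_eq_self (fun z : ℝ =>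
      ((Real.exp (-(z - v) ^ 2) : ℝ) : ℂ) * ei (d * z)) v, ← integral_const_mul]
    refine integral_congr_ae (Filter.Eventually.of_forall fun z => ?_)
    simp only
    have e1 : ei (d * (z + v)) = ei (d * v) * ei (d * z) := by
      rw [← ml_ei_add]
      congr 1
      ring
    have e2 : ((Real.exp (-(z + v - v) ^ 2) : ℝ) : ℂ) = cexp (-1 * (z : ℂ) ^ 2) := by
      rw [Complex.ofReal_exp]
      congr 1
      push_cast
      ring
    have e3 : ei (d * z) = cexp (I * (d : ℂ) * z) := by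
      unfold ei
      congr 1
      push_cast
      ring
    rw [e1, e2, e3]
    ring
  have h2 := fourierIntegral_gaussian (b := 1) (by simp) (d : ℂ)
  rw [h1, h2, norm_mul, norm_mul, ml_norm_ei, one_mul, div_one, mul_one,
    Complex.norm_cpow_eq_rpow_re_of_pos Real.pi_pos, Complex.norm_exp]
  have h3 : (-(d : ℂ) ^ 2 / 4).re = -d ^ 2 / 4 := by
    have : (-(d : ℂ) ^ 2 / 4) = ((-d ^ 2 / 4 : ℝ) : ℂ) := by
      push_cast
      ring
    rw [this, Complex.ofReal_re]
  rw [h3]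
  refine mul_le_mul_of_nonneg_right ?_ (Real.exp_pos _).le
  have h4 : (1 / 2 : ℂ).re = 1 / 2 := by norm_num
  rw [h4, ← Real.sqrt_eq_rpow]
  rw [show (2 : ℝ) = Real.sqrt 4 by
    rw [show (4 : ℝ) = 2 ^ 2 by norm_num, Real.sqrt_sq (by norm_num)]]
  exact Real.sqrt_le_sqrt Real.pi_le_four

theorem ml_gint (v : ℝ) : Integrable (fun z : ℝ => Real.exp (-(z - v) ^ 2)) := by
  have h := (integrable_exp_neg_mul_sq (b := 1) one_pos).comp_sub_right v
  simpa using h

theorem ml_int (d v : ℝ) :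
    Integrable (fun z : ℝ => ((Real.exp (-(z - v) ^ 2) : ℝ) : ℂ) * ei (d * z)) := by
  refine (ml_gint v).mono' ?_ (Filter.Eventually.of_forall fun z => ?_)
  · refine Continuous.aestronglyMeasurable ?_
    exact (Complex.continuous_ofReal.comp (by fun_prop)).mul (ml_ei_cont d)
  · rw [norm_mul, ml_norm_ei, mul_one, Complex.norm_real, Real.norm_of_nonneg (Real.exp_pos _).le]

/-- the square of the exponential sum -/
theorem ml_sq (A : Cloud) (z : ℝ) : ((‖A.E z‖ ^ 2 : ℝ) : ℂ) =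
    ∑ i ∈ A.I, ∑ j ∈ A.I, ((A.w i * A.w j : ℝ) : ℂ) * ei ((A.x i - A.x j) * z) := by
  have h1 : ((‖A.E z‖ ^ 2 : ℝ) : ℂ) = A.E z * (starRingEnd ℂ) (A.E z) := by
    rw [Complex.mul_conj, Complex.normSq_eq_norm_sq]
  rw [h1]
  unfold Cloud.E
  rw [map_sum, Finset.sum_mul_sum]
  refine Finset.sum_congr rfl fun i _ => Finset.sum_congr rfl fun j _ => ?_
  rw [map_mul, Complex.conj_ofReal, ml_ei_conj]
  have e : ei ((A.x i - A.x j) * z) = ei (A.x i * z) * ei (-(A.x j * z)) := by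
    rw [← ml_ei_add]
    congr 1
    ring
  rw [e]
  push_cast
  ring

theorem ml_E_cont (A : Cloud) : Continuous A.E := by
  unfold Cloud.E
  exact continuous_finsetSum _ fun i _ => continuous_const.mul (ml_ei_cont _)

theorem ml_E_bd (A : Cloud) (z : ℝ) : ‖A.E z‖ ≤ A.m := by
  unfold Cloud.E Cloud.m
  refine (norm_sum_le _ _).trans (Finset.sum_le_sum fun i _ => ?_)
  rw [norm_mul, ml_norm_ei, mul_one, Complex.norm_real, Real.norm_of_nonneg (A.nn i)]

theorem ml_Rint (A : Cloud) (v : ℝ) :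
    Integrable (fun z : ℝ => Real.exp (-(z - v) ^ 2) * ‖A.E z‖ ^ 2) := by
  refine ((ml_gint v).mul_const (A.m ^ 2)).mono' ?_ (Filter.Eventually.of_forall fun z => ?_)
  · exact (Continuous.mul (by fun_prop) ((ml_E_cont A).norm.pow 2)).aestronglyMeasurable
  · rw [Real.norm_of_nonneg (by positivity)]
    refine mul_le_mul_of_nonneg_left ?_ (Real.exp_pos _).le
    exact pow_le_pow_left₀ (norm_nonneg _) (ml_E_bd A z) 2

/-- the Gaussian mean of the square -/
theorem ml_mean (A : Cloud) (v : ℝ) : ∫ z : ℝ, Real.exp (-(z - v) ^ 2) * ‖A.E z‖ ^ 2 ≤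
    ∑ i ∈ A.I, ∑ j ∈ A.I, A.w i * A.w j * (2 * Real.exp (-(A.x i - A.x j) ^ 2 / 4)) := by
  have h1 : ((∫ z : ℝ, Real.exp (-(z - v) ^ 2) * ‖A.E z‖ ^ 2 : ℝ) : ℂ) =
      ∑ i ∈ A.I, ∑ j ∈ A.I, ((A.w i * A.w j : ℝ) : ℂ) *
        ∫ z : ℝ, ((Real.exp (-(z - v) ^ 2) : ℝ) : ℂ) * ei ((A.x i - A.x j) * z) := by
    rw [← integral_complex_ofReal]
    have e : (fun z : ℝ => ((Real.exp (-(z - v) ^ 2) * ‖A.E z‖ ^ 2 : ℝ) : ℂ)) = fun z : ℝ =>
        ∑ i ∈ A.I, ∑ j ∈ A.I, ((A.w i * A.w j : ℝ) : ℂ) *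
          (((Real.exp (-(z - v) ^ 2) : ℝ) : ℂ) * ei ((A.x i - A.x j) * z)) := by
      funext z
      rw [Complex.ofReal_mul, ml_sq, Finset.mul_sum]
      refine Finset.sum_congr rfl fun i _ => ?_
      rw [Finset.mul_sum]
      refine Finset.sum_congr rfl fun j _ => ?_
      ring
    change ∫ z : ℝ, ((Real.exp (-(z - v) ^ 2) * ‖A.E z‖ ^ 2 : ℝ) : ℂ) = _
    rw [e, integral_finsetSum]
    · refine Finset.sum_congr rfl fun i _ => ?_
      rw [integral_finsetSum]
      · refine Finset.sum_congr rfl fun j _ => ?_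
        rw [integral_const_mul]
      · intro j _
        exact (ml_int _ v).const_mul _
    · intro i _
      exact integrable_finsetSum _ fun j _ => (ml_int _ v).const_mul _
  have h0 : 0 ≤ ∫ z : ℝ, Real.exp (-(z - v) ^ 2) * ‖A.E z‖ ^ 2 :=
    integral_nonneg fun z => by positivity
  have h2 : ∫ z : ℝ, Real.exp (-(z - v) ^ 2) * ‖A.E z‖ ^ 2 =
      ‖((∫ z : ℝ, Real.exp (-(z - v) ^ 2) * ‖A.E z‖ ^ 2 : ℝ) : ℂ)‖ := by
    rw [Complex.norm_real, Real.norm_of_nonneg h0]
  rw [h2, h1]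
  refine (norm_sum_le _ _).trans (Finset.sum_le_sum fun i _ => ?_)
  refine (norm_sum_le _ _).trans (Finset.sum_le_sum fun j _ => ?_)
  rw [norm_mul, Complex.norm_real, Real.norm_of_nonneg (mul_nonneg (A.nn i) (A.nn j))]
  exact mul_le_mul_of_nonneg_left (ml_gauss _ v) (mul_nonneg (A.nn i) (A.nn j))

/-- the weight of the cell `n` -/
noncomputable def gc (n : ℤ) : ℝ := 4 / (1 + (n : ℝ) ^ 2) + 4 / (1 + ((n : ℝ) + 1) ^ 2)

theorem ml_cell (d : ℝ) : Real.exp (-d ^ 2 / 4) ≤ gc ⌊d⌋ := by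
  have h1 : Real.exp (-d ^ 2 / 4) ≤ 4 / (1 + d ^ 2) := by
    rw [neg_div, Real.exp_neg, inv_eq_one_div, div_le_div_iff₀ (Real.exp_pos _) (by positivity)]
    have := Real.add_one_le_exp (d ^ 2 / 4)
    nlinarith [sq_nonneg d]
  refine h1.trans ?_
  set n := ⌊d⌋ with hn
  have h2 : (n : ℝ) ≤ d := Int.floor_le d
  have h3 : d < n + 1 := Int.lt_floor_add_one d
  unfold gc
  rcases le_or_gt 0 n with h | h
  · have hn0 : (0 : ℝ) ≤ n := by exact_mod_cast h
    have h4 : 4 / (1 + d ^ 2) ≤ 4 / (1 + (n : ℝ) ^ 2) := by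
      refine div_le_div_of_nonneg_left (by norm_num) (by positivity) ?_
      nlinarith
    have h5 : 0 ≤ 4 / (1 + ((n : ℝ) + 1) ^ 2) := by positivity
    linarith
  · have hn0 : (n : ℝ) + 1 ≤ 0 := by exact_mod_cast h
    have h4 : 4 / (1 + d ^ 2) ≤ 4 / (1 + ((n : ℝ) + 1) ^ 2) := by
      refine div_le_div_of_nonneg_left (by norm_num) (by positivity) ?_
      nlinarith
    have h5 : 0 ≤ 4 / (1 + (n : ℝ) ^ 2) := by positivity
    linarith

theorem ml_summ : Summable (fun n : ℤ => 4 / (1 + (n : ℝ) ^ 2)) := by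
  have h1 : Summable (fun n : ℤ => 4 * (1 / (n : ℝ) ^ 2) + if n = 0 then (4 : ℝ) else 0) := by
    refine ((Real.summable_one_div_int_pow.2 one_lt_two).mul_left 4).add ?_
    exact summable_of_hasFiniteSupport ((Set.finite_singleton (0 : ℤ)).subset (by
      intro n hn
      by_contra h
      apply hn
      have h' : n ≠ 0 := fun e => h e
      simp only
      rw [if_neg h']))
  refine Summable.of_nonneg_of_le (fun n => by positivity) (fun n => ?_) h1
  by_cases h : n = 0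
  · rw [if_pos h, h]
    norm_num
  · rw [if_neg h, add_zero]
    have hn : (0 : ℝ) < (n : ℝ) ^ 2 := by
      have : (n : ℝ) ≠ 0 := by exact_mod_cast h
      positivity
    rw [mul_one_div]
    exact div_le_div_of_nonneg_left (by norm_num) hn (by linarith)

theorem ml_summ_gc : Summable gc := by
  unfold gc
  refine ml_summ.add ?_
  have h := (Equiv.addRight (1 : ℤ)).summable_iff.2 ml_summ
  refine h.congr fun n => ?_
  simp

theorem ml_gc_nonneg (n : ℤ) : 0 ≤ gc n := by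
  unfold gc
  positivity

/-- the inner sum -/
theorem ml_inner (A : Cloud) (T μ : ℝ) (hA : A.Sp T μ) (x : ℝ) :
    ∑ j ∈ A.I, A.w j * Real.exp (-(x - A.x j) ^ 2 / 4) ≤ μ * ∑' n, gc n := by
  classical
  have hμ : 0 ≤ μ := le_trans (Finset.sum_nonneg fun i _ => A.nn i) (hA.loc 0)
  set F : Finset ℤ := A.I.image (fun j => ⌊A.x j - x⌋) with hF
  calc ∑ j ∈ A.I, A.w j * Real.exp (-(x - A.x j) ^ 2 / 4)
      ≤ ∑ j ∈ A.I, A.w j * gc ⌊A.x j - x⌋ := by
        refine Finset.sum_le_sum fun j _ => mul_le_mul_of_nonneg_left ?_ (A.nn j)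
        have e : -(x - A.x j) ^ 2 / 4 = -(A.x j - x) ^ 2 / 4 := by ring
        rw [e]
        exact ml_cell _
    _ = ∑ n ∈ F, ∑ j ∈ A.I with ⌊A.x j - x⌋ = n, A.w j * gc ⌊A.x j - x⌋ := by
        rw [Finset.sum_fiberwise_of_maps_to]
        intro j hj
        exact Finset.mem_image_of_mem _ hj
    _ ≤ ∑ n ∈ F, μ * gc n := by
        refine Finset.sum_le_sum fun n _ => ?_
        have e : ∑ j ∈ A.I with ⌊A.x j - x⌋ = n, A.w j * gc ⌊A.x j - x⌋ =
            (∑ j ∈ A.I with ⌊A.x j - x⌋ = n, A.w j) * gc n := by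
          rw [Finset.sum_mul]
          refine Finset.sum_congr rfl fun j hj => ?_
          rw [(Finset.mem_filter.1 hj).2]
        rw [e]
        refine mul_le_mul_of_nonneg_right ?_ (ml_gc_nonneg n)
        refine le_trans (Finset.sum_le_sum_of_subset_of_nonneg ?_ fun i _ _ => A.nn i)
          (hA.loc (x + n))
        intro j hj
        rw [Finset.mem_filter] at hj ⊢
        refine ⟨hj.1, ?_, ?_⟩
        · have := Int.floor_le (A.x j - x)
          rw [hj.2] at this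
          linarith
        · have := Int.lt_floor_add_one (A.x j - x)
          rw [hj.2] at this
          linarith
    _ = μ * ∑ n ∈ F, gc n := by rw [Finset.mul_sum]
    _ ≤ μ * ∑' n, gc n :=
        mul_le_mul_of_nonneg_left (ml_summ_gc.sum_le_tsum F fun n _ => ml_gc_nonneg n) hμ

theorem pf_ML : T_ML := by
  have hS : 0 ≤ ∑' n, gc n := tsum_nonneg ml_gc_nonneg
  refine ⟨3 * (2 * (∑' n, gc n)) + 1, by positivity, ?_⟩
  intro A T μ v hA
  have hμ : 0 ≤ μ := le_trans (Finset.sum_nonneg fun i _ => A.nn i) (hA.loc 0)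
  have hm : 0 ≤ A.m := Finset.sum_nonneg fun i _ => A.nn i
  have h1 : (∫ z in v..(v + 1), ‖A.E z‖ ^ 2) ≤
      3 * ∫ z : ℝ, Real.exp (-(z - v) ^ 2) * ‖A.E z‖ ^ 2 := by
    rw [intervalIntegral.integral_of_le (by linarith), ← integral_const_mul]
    refine (setIntegral_mono_on ?_ ?_ measurableSet_Ioc fun z hz => ?_).trans
      (setIntegral_le_integral ((ml_Rint A v).const_mul 3)
        (Filter.Eventually.of_forall fun z => by positivity))
    · exact (((ml_E_cont A).norm.pow 2).integrableOn_Icc).mono_set Ioc_subset_Icc_self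
    · exact ((ml_Rint A v).const_mul 3).integrableOn
    · have h2 : 1 ≤ 3 * Real.exp (-(z - v) ^ 2) := by
        have h3 : (z - v) ^ 2 ≤ 1 := by
          have := hz.1
          have := hz.2
          nlinarith
        have h4 : Real.exp (-1) ≤ Real.exp (-(z - v) ^ 2) := Real.exp_le_exp.2 (by linarith)
        have h5 : 1 ≤ 3 * Real.exp (-1) := by
          rw [Real.exp_neg]
          have h6 : Real.exp 1 < 3 := lt_trans Real.exp_one_lt_d9 (by norm_num)
          rw [← div_eq_mul_inv, le_div_iff₀ (Real.exp_pos 1)]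
          linarith
        linarith
      have h7 : 0 ≤ ‖A.E z‖ ^ 2 := by positivity
      nlinarith
  have h8 : ∑ i ∈ A.I, ∑ j ∈ A.I, A.w i * A.w j * (2 * Real.exp (-(A.x i - A.x j) ^ 2 / 4)) ≤
      2 * (∑' n, gc n) * (μ * A.m) := by
    calc ∑ i ∈ A.I, ∑ j ∈ A.I, A.w i * A.w j * (2 * Real.exp (-(A.x i - A.x j) ^ 2 / 4))
        = ∑ i ∈ A.I, (2 * A.w i) * ∑ j ∈ A.I, A.w j * Real.exp (-(A.x i - A.x j) ^ 2 / 4) := by
          refine Finset.sum_congr rfl fun i _ => ?_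
          rw [Finset.mul_sum]
          refine Finset.sum_congr rfl fun j _ => ?_
          ring
      _ ≤ ∑ i ∈ A.I, (2 * A.w i) * (μ * ∑' n, gc n) := by
          refine Finset.sum_le_sum fun i _ => ?_
          exact mul_le_mul_of_nonneg_left (ml_inner A T μ hA _) (by linarith [A.nn i])
      _ = 2 * (∑' n, gc n) * (μ * A.m) := by
          rw [← Finset.sum_mul, ← Finset.mul_sum]
          unfold Cloud.m
          ring
  have h9 := ml_mean A v
  have h10 : 0 ≤ μ * A.m := mul_nonneg hμ hm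
  nlinarith [h1, h8, h9, h10]

end Pool.Agent.H34.OT
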