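import Pool.Agent.H88.OT.Targets
import Pool.Agent.H34.OT.ML

/-!
# (FS) Fourier inversion
-/

set_option autoImplicit false

open Complex MeasureTheory Set
open scoped FourierTransform RealInnerProductSpace

namespace Pool.Agent.H34.OT

open Pool.Agent.H88.OT
open Pool.Agent.H28.MZ (ei)

/-- the cloud with one point at the origin -/
noncomputable def fs_one : Cloud where
  ι := Unit
  I := {()}
  x := fun _ => 0
  w := fun _ => 1
  nn := fun _ => zero_le_one

theorem fs_one_E (z : ℝ) : fs_one.E z = 1 := by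
  unfold Cloud.E fs_one ei
  simp

theorem fs_int0 (hKB : T_KB) {u : ℝ} (hu : 0 < u) :
    Integrable (fun ξ : ℝ => u / (1 + u * |ξ|) ^ 2) := by
  have h := (hKB fs_one fs_one u 0 hu).1
  simpa [fs_one_E] using h

theorem fs_fourier (φ : ℝ → ℂ) (w : ℝ) :
    𝓕 φ w = ∫ t : ℝ, φ t * ei (t * (-(2 * Real.pi) * w)) := by
  rw [Real.fourier_real_eq_integral_exp_smul]
  refine integral_congr_ae (Filter.Eventually.of_forall fun t => ?_)
  simp only [smul_eq_mul]
  rw [mul_comm]
  congr 1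
  unfold ei
  congr 1
  push_cast
  ring

theorem fs_fourierInv (h : ℝ → ℂ) (v : ℝ) :
    𝓕⁻ h v = ∫ w : ℝ, h w * ei (2 * Real.pi * w * v) := by
  rw [Real.fourierInv_eq']
  refine integral_congr_ae (Filter.Eventually.of_forall fun w => ?_)
  simp only [smul_eq_mul]
  rw [mul_comm]
  congr 1
  unfold ei
  congr 1
  simp
  ring

theorem fs_fcont {φ : ℝ → ℂ} (hφ : Integrable φ) : Continuous (𝓕 φ) :=
  VectorFourier.fourierIntegral_continuous Real.continuous_fourierChar
    (by exact continuous_inner) hφ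

theorem fs_bound {φ : ℝ → ℂ} {K u : ℝ}
    (h : ∀ y : ℝ, ‖∫ t : ℝ, φ t * ei (t * y)‖ ≤ K * (u / (1 + u * |y|) ^ 2)) (w : ℝ) :
    ‖𝓕 φ w‖ ≤ K * (u / (1 + u * |2 * Real.pi * w|) ^ 2) := by
  rw [fs_fourier]
  refine (h _).trans (le_of_eq ?_)
  have e : |(-(2 * Real.pi) * w)| = |2 * Real.pi * w| := by
    rw [neg_mul, abs_neg]
  rw [e]

theorem fs_fint (hKB : T_KB) {φ : ℝ → ℂ} {K u : ℝ} (hφ : Integrable φ) (hu : 0 < u)
    (h : ∀ y : ℝ, ‖∫ t : ℝ, φ t * ei (t * y)‖ ≤ K * (u / (1 + u * |y|) ^ 2)) :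
    Integrable (𝓕 φ) := by
  have h1 : Integrable (fun w : ℝ => K * (u / (1 + u * |2 * Real.pi * w|) ^ 2)) :=
    ((fs_int0 hKB hu).comp_mul_left' (by positivity : (2 * Real.pi) ≠ 0)).const_mul K
  exact h1.mono' (fs_fcont hφ).aestronglyMeasurable
    (Filter.Eventually.of_forall fun w => fs_bound h w)

theorem fs_term {f : ℝ → ℂ} (hf : Integrable f) (hc : Continuous f) (s : ℝ) :
    Integrable (fun w : ℝ => f w * ei (2 * Real.pi * w * s)) := by
  have hei : Continuous (fun w : ℝ => ei (2 * Real.pi * w * s)) := by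
    unfold ei
    fun_prop
  refine hf.norm.mono' (hc.mul hei).aestronglyMeasurable
    (Filter.Eventually.of_forall fun w => ?_)
  rw [norm_mul, ml_norm_ei, mul_one]

theorem fs_EE (A B : Cloud) (z : ℝ) : A.E z * B.E z =
    ∑ i ∈ A.I, ∑ j ∈ B.I, ((A.w i * B.w j : ℝ) : ℂ) * ei ((A.x i + B.x j) * z) := by
  unfold Cloud.E
  rw [Finset.sum_mul_sum]
  refine Finset.sum_congr rfl fun i _ => Finset.sum_congr rfl fun j _ => ?_
  rw [add_mul, ml_ei_add]
  push_cast
  ring

theorem fs_formula (hKB : T_KB) (A B : Cloud) {φ : ℝ → ℂ} {K u : ℝ} (y : ℝ)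
    (hc : Continuous φ) (hφ : Integrable φ) (hu : 0 < u)
    (h : ∀ y : ℝ, ‖∫ t : ℝ, φ t * ei (t * y)‖ ≤ K * (u / (1 + u * |y|) ^ 2)) :
    Sm A B (fun t => φ t * ei (t * y)) =
      ∫ w : ℝ, 𝓕 φ w * (A.E (y + 2 * Real.pi * w) * B.E (y + 2 * Real.pi * w)) := by
  have hfi := fs_fint hKB hφ hu h
  have hfc := fs_fcont hφ
  have hinv : ∀ s : ℝ, φ s = ∫ w : ℝ, 𝓕 φ w * ei (2 * Real.pi * w * s) := by
    intro s
    rw [← fs_fourierInv, Continuous.fourierInv_fourier_eq hc hφ hfi]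
  have e : (fun w : ℝ => 𝓕 φ w * (A.E (y + 2 * Real.pi * w) * B.E (y + 2 * Real.pi * w))) =
      fun w : ℝ => ∑ i ∈ A.I, ∑ j ∈ B.I, (((A.w i * B.w j : ℝ) : ℂ) *
        ei ((A.x i + B.x j) * y)) * (𝓕 φ w * ei (2 * Real.pi * w * (A.x i + B.x j))) := by
    funext w
    rw [fs_EE, Finset.mul_sum]
    refine Finset.sum_congr rfl fun i _ => ?_
    rw [Finset.mul_sum]
    refine Finset.sum_congr rfl fun j _ => ?_
    have e1 : ei ((A.x i + B.x j) * (y + 2 * Real.pi * w)) =
        ei ((A.x i + B.x j) * y) * ei (2 * Real.pi * w * (A.x i + B.x j)) := by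
      rw [← ml_ei_add]
      congr 1
      ring
    rw [e1]
    ring
  rw [e, integral_finsetSum]
  · unfold Sm
    refine Finset.sum_congr rfl fun i _ => ?_
    rw [integral_finsetSum]
    · refine Finset.sum_congr rfl fun j _ => ?_
      rw [integral_const_mul, ← hinv]
      ring
    · intro j _
      exact (fs_term hfi hfc _).const_mul _
  · intro i _
    exact integrable_finsetSum _ fun j _ => (fs_term hfi hfc _).const_mul _

theorem pf_FS (hKB : T_KB) : T_FS := by
  intro A B φ K u y hc hφ hu hK h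
  rw [fs_formula hKB A B y hc hφ hu h]
  have hpi : (0 : ℝ) < 2 * Real.pi := by positivity
  obtain ⟨hint, hnn, _⟩ := hKB A B u y hu
  let G : ℝ → ℝ := fun ξ => u / (1 + u * |ξ|) ^ 2 * (‖A.E (y + ξ)‖ * ‖B.E (y + ξ)‖)
  have hG : Integrable (fun w : ℝ => K * G (2 * Real.pi * w)) :=
    (hint.comp_mul_left' hpi.ne').const_mul K
  calc ‖∫ w : ℝ, 𝓕 φ w * (A.E (y + 2 * Real.pi * w) * B.E (y + 2 * Real.pi * w))‖
      ≤ ∫ w : ℝ, K * G (2 * Real.pi * w) := by
        refine norm_integral_le_of_norm_le hG (Filter.Eventually.of_forall fun w => ?_)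
        rw [norm_mul, norm_mul]
        have h1 := fs_bound h w
        have h2 : 0 ≤ ‖A.E (y + 2 * Real.pi * w)‖ * ‖B.E (y + 2 * Real.pi * w)‖ := by positivity
        refine (mul_le_mul_of_nonneg_right h1 h2).trans (le_of_eq ?_)
        simp only [G]
        ring
    _ = K * (|(2 * Real.pi)⁻¹| * KK A B u y) := by
        rw [integral_const_mul, Measure.integral_comp_mul_left G (2 * Real.pi), smul_eq_mul]
        rfl
    _ ≤ K * KK A B u y := by
        refine mul_le_mul_of_nonneg_left ?_ hK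
        have h3 : |(2 * Real.pi)⁻¹| ≤ 1 := by
          rw [abs_of_pos (inv_pos.2 hpi)]
          refine inv_le_one_of_one_le₀ ?_
          linarith [Real.pi_gt_three]
        calc |(2 * Real.pi)⁻¹| * KK A B u y ≤ 1 * KK A B u y :=
              mul_le_mul_of_nonneg_right h3 hnn
          _ = KK A B u y := one_mul _

end Pool.Agent.H34.OT
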